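import Mathlib

namespace Pool.Agent.Results.MP_5814e0_lc.Yes

open FirstOrder FirstOrder.Language

section
variable (L : FirstOrder.Language.{0, 0}) (M A : Type) [L.Structure M] [L.Structure A]

/-- externally definable 2-colourings of the copies of the enumerated structure A in M -/
def ExtDef (χ : (A ↪[L] M) → Fin 2) : Prop :=
  ∃ (N : Type) (_ : L.Structure N) (j : M ↪ₑ[L] N) (k : ℕ) (e : Fin k → N)
    (φ : Fin 2 → L.Formula (Fin k ⊕ A)),
    ∀ (f : A ↪[L] M) (i : Fin 2), χ f = i ↔ (φ i).Realize (Sum.elim e (fun a => j (f a)))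

def Mono (χ : (A ↪[L] M) → Fin 2) (S : Set M) : Prop :=
  ∀ f g : A ↪[L] M, Set.range f ⊆ S → Set.range g ⊆ S → χ f = χ g

variable (B : Type) [L.Structure B]

def ArrM : Prop := ∀ χ, ExtDef L M A χ → ∃ b : B ↪[L] M, Mono L M A χ (Set.range b)

def ArrC (C : Type) [L.Structure C] : Prop := ∀ (c : C ↪[L] M) (χ), ExtDef L M A χ →
  ∃ b : B ↪[L] C, Mono L M A χ (Set.range (fun x => c (b x)))

end

attribute [local instance 50] Language.emptyStructure

def eqv {M N : Type} [Language.empty.Structure M] [Language.empty.Structure N] (e : M ≃ N) :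
    M ≃[Language.empty] N where
  toEquiv := e
  map_fun' f := isEmptyElim f
  map_rel' f := isEmptyElim f

def emb {M N : Type} [Language.empty.Structure M] [Language.empty.Structure N] (e : M ↪ N) :
    M ↪[Language.empty] N where
  toEmbedding := e
  map_fun' f := isEmptyElim f
  map_rel' f := isEmptyElim f

theorem uh : Language.empty.IsUltrahomogeneous ℕ := by
  intro S hS f
  have : Finite S := hS.finite
  obtain ⟨g, hg⟩ := Equiv.Perm.exists_extending_pair (f := fun x : S => (x : ℕ)) (g := f)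
    Subtype.val_injective f.injective
  exact ⟨eqv g, Embedding.ext fun x => (hg x).symm⟩

theorem arrM : ArrM Language.empty ℕ Bool Bool := by
  classical
  rintro χ ⟨N, _, j, k, e, φ, h⟩
  have : {n | j n ∈ Set.range e}ᶜ.Infinite :=
    ((Set.finite_range e).preimage j.injective.injOn).infinite_compl
  obtain ⟨x, hx, y, hy, hxy⟩ := this.nontrivial
  refine ⟨emb ⟨fun b => cond b x y, by intro a b; cases a <;> cases b <;> simp [hxy, hxy.symm]⟩,
    fun f g hf hg => ?_⟩
  have a : ∀ f : Bool ↪[Language.empty] ℕ, Set.range f ⊆ Set.range (fun b => cond b x y) →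
      (f true = x ∧ f false = y) ∨ (f true = y ∧ f false = x) := by
    intro f hf
    obtain ⟨a, ha⟩ := hf ⟨true, rfl⟩
    obtain ⟨b, hb⟩ := hf ⟨false, rfl⟩
    have : f true ≠ f false := f.injective.ne (by simp)
    cases a <;> cases b <;> simp_all
  have s : ∀ f g : Bool ↪[Language.empty] ℕ, f true = x → f false = y → g true = y → g false = x →
      χ f = χ g := by
    intro f g f1 f2 g1 g2
    rw [h, ← StrongHomClass.realize_formula (eqv (Equiv.swap (j x) (j y)))]
    convert (h g _).1 rfl
    funext z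
    rcases z with z | z
    · exact Equiv.swap_apply_of_ne_of_ne (fun c => hx ⟨z, c⟩) (fun c => hy ⟨z, c⟩)
    · cases z
      · simp only [Function.comp, Sum.elim_inr, f2, g2]
        exact Equiv.swap_apply_right _ _
      · simp only [Function.comp, Sum.elim_inr, f1, g1]
        exact Equiv.swap_apply_left _ _
  rcases a f hf with ⟨f1, f2⟩ | ⟨f1, f2⟩ <;> rcases a g hg with ⟨g1, g2⟩ | ⟨g1, g2⟩
  · congr 1; ext b; cases b <;> simp [*]
  · exact s f g f1 f2 g1 g2
  · exact (s g f g1 g2 f1 f2).symm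
  · congr 1; ext b; cases b <;> simp [*]

theorem arrC (C : Type) [Language.empty.Structure C] [Finite C] (c : C ↪[Language.empty] ℕ) :
    ¬ ArrC Language.empty ℕ Bool Bool C := by
  classical
  intro h
  obtain ⟨k, ⟨e⟩⟩ := Finite.exists_equiv_fin C
  let P (f : Bool → ℕ) := ∃ p : {p : Fin k × Fin k // c (e.symm p.1) < c (e.symm p.2)},
    f true = c (e.symm p.1.1) ∧ f false = c (e.symm p.1.2)
  let ψ : Language.empty.Formula (Fin k ⊕ Bool) :=
    Formula.iSup fun p : {p : Fin k × Fin k // c (e.symm p.1) < c (e.symm p.2)} =>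
      (Term.var (.inr true)).equal (.var (.inl p.1.1)) ⊓
        (Term.var (.inr false)).equal (.var (.inl p.1.2))
  obtain ⟨b, hb⟩ := h c (fun f => if P f then 0 else 1) ⟨ℕ, _, .refl _ _, k, fun i => c (e.symm i),
    ![ψ, ψ.not], fun f i => by fin_cases i <;> simp [ψ, P]⟩
  have l : ∀ x y, c (b x) < c (b y) → False := by
    intro x y hl
    have n : c (b x) ≠ c (b y) := hl.ne
    have := hb (emb ⟨fun t => cond t (c (b x)) (c (b y)), by
        intro a b; cases a <;> cases b <;> simp [n, n.symm]⟩)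
      (emb ⟨fun t => cond t (c (b y)) (c (b x)), by
        intro a b; cases a <;> cases b <;> simp [n, n.symm]⟩)
      (by rintro _ ⟨t, rfl⟩; cases t <;> exact ⟨_, rfl⟩)
      (by rintro _ ⟨t, rfl⟩; cases t <;> exact ⟨_, rfl⟩)
    beta_reduce at this
    rw [if_pos ⟨⟨(e (b x), e (b y)), by simpa using hl⟩, by simp; exact ⟨rfl, rfl⟩⟩, if_neg] at this
    · exact absurd this (by decide)
    · rintro ⟨p, h1, h2⟩
      have := p.2
      rw [← h1, ← h2] at this
      exact absurd hl (not_lt.2 this.le)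
  rcases lt_or_gt_of_ne (c.injective.ne (b.injective.ne (show true ≠ false by simp))) with a | a <;>
    exact l _ _ a

theorem result : ∃ (L : FirstOrder.Language.{0, 0}) (_ : L.IsRelational) (_ : Countable L.Symbols)
    (M : Type) (_ : L.Structure M) (_ : Countable M) (_ : Infinite M), L.IsUltrahomogeneous M ∧
    ∃ (A B : Type) (_ : L.Structure A) (_ : L.Structure B), Finite A ∧ Finite B ∧
      Nonempty (A ↪[L] M) ∧ Nonempty (B ↪[L] M) ∧ ArrM L M A B ∧
      ¬ ∃ (C : Type) (_ : L.Structure C), Finite C ∧ Nonempty (C ↪[L] M) ∧ ArrC L M A B C :=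
  ⟨Language.empty, inferInstance, inferInstance, ℕ, inferInstance, inferInstance, inferInstance, uh,
    Bool, Bool, inferInstance, inferInstance, inferInstance, inferInstance,
    ⟨emb ⟨Bool.toNat, by decide⟩⟩, ⟨emb ⟨Bool.toNat, by decide⟩⟩, arrM,
    fun ⟨C, _, _, ⟨c⟩, h⟩ => arrC C c h⟩

end Pool.Agent.Results.MP_5814e0_lc.Yes
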